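import Mathlib
import Pool.Agent.Run7.h371.G.RotDatum
import Pool.Agent.Run7.h371.G.Final

/-!
# Base-rotating actions of prime order at least five: the quotient monodromy is unique
-/

set_option autoImplicit false

namespace Pool.Agent.Results.MP_5de271_gt.BaseRotating

open Run7.h371 Run7.h371.G

/-- For every prime `p ≥ 5`, the quotient monodromy of a base-rotating `ℤ/p`-action on an
elliptic fibration of the K3 manifold is determined, up to elementary transformations and
simultaneous conjugation, by the local monodromies around the two invariant fibres. -/
theorem result (p : ℕ) (hp : p.Prime) (h5 : 5 ≤ p) (D D' : RotDatum p) :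
    Eqv D.tuple D'.tuple ↔ IsConj D.A D'.A ∧ IsConj D.B D'.B :=
  rot_classify (hp.odd_of_ne_two (by omega)) h5 D D'

end Pool.Agent.Results.MP_5de271_gt.BaseRotating
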