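import Mathlib
import Pool.Agent.Run7.h371.G.Datum
import Pool.Agent.Run7.h371.G.Classify

/-!
# Monodromy data with two special fibres are classified by their local types
-/

set_option autoImplicit false

namespace Pool.Agent.Results.MP_5de271_gt.RelativeMoishezon

open Run7.h371 Run7.h371.G

/-- Two monodromy data with two special entries (of finite order, or conjugate to plus or minus a
Dehn twist) and otherwise right-handed Dehn twists are related by elementary transformations and
simultaneous conjugation if and only if they have the same local types and the same number of
Dehn twists. -/
theorem result (D D' : Run7.h371.G.Datum) :
    Eqv D.tuple D'.tuple ↔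
      IsConj D.A D'.A ∧ IsConj D.B D'.B ∧ D.t.length = D'.t.length :=
  Run7.h371.G.classify D D'

end Pool.Agent.Results.MP_5de271_gt.RelativeMoishezon
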